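import Pool.Agent.H27.MkE

/-! Distinct vertices of the mirror Markov tree have distinct maxima. -/

namespace Pool.Agent.Results.MP_6870a6_co.Full
open Polynomial Pool.Agent.H27.Mk

theorem result : (∀ v, ∃ a b c, Vert v a b c) ∧
    ∀ (v v' : Bool ⊕ List Bool) (a b c a' b' c' : ℤ[X]), Vert v a b c → Vert v' a' b' c' → c = c' →
      v = v' ∧ a = a' ∧ b = b' := by
  refine ⟨Vert.ex, fun v v' a b c a' b' c' h h' hc => ?_⟩
  have hd := congrArg natDegree hc
  have d1 := deg0.1
  have d0 : (1 : ℤ[X]).natDegree = 0 := natDegree_one
  have big : ∀ {w a b c e}, Tree w a b c e → 2 ≤ c.natDegree := fun h => by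
    have := h.pos.2.2.2.2
    have := h.lab.2.1
    omega
  cases h with
  | top =>
    cases h' with
    | top => simp
    | second => omega
    | node g => have := big g; omega
  | second =>
    cases h' with
    | top => omega
    | second => simp
    | node g => have := big g; omega
  | node f =>
    have := big f
    cases h' with
    | top => omega
    | second => omega
    | node g =>
      obtain ⟨rfl, h1, h2, -⟩ := f.uniq g (by rw [hc])
      exact ⟨rfl, h1, h2⟩

end Pool.Agent.Results.MP_6870a6_co.Full
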